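import Pool.Agent.H29.R2.Targets
import Pool.Agent.H25.MZ.FG3

/-!
# Orders of zeros modulo `m` for families of Artin L-functions: the theorem
-/

set_option autoImplicit false

open Complex MeasureTheory Set Filter Topology

namespace Pool.Agent.H60.R2

open Pool.Agent.H29.R2 Pool.Agent.H28.RC Pool.Agent.H25.HK Pool.Agent.H25
open Pool.Agent.H29.RT Pool.Agent.H29.RS Pool.Agent.H25.DL Pool.Agent.H25.DP Pool.Agent.H25.MZ
open Pool.Agent.H23.GLH Pool.Agent.H48.DL

lemma GF_toNatC (a : ℤ) : ((a.toNat : ℂ) - ((-a).toNat : ℂ)) = (a : ℂ) := by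
  have h1 : ((a.toNat : ℤ) - ((-a).toNat : ℤ) : ℤ) = a := by
    rcases le_total 0 a with h4 | h4
    · rw [Int.toNat_of_nonneg h4, Int.toNat_of_nonpos (by omega)]; simp
    · rw [Int.toNat_of_nonneg (by omega : 0 ≤ -a), Int.toNat_of_nonpos h4]; simp
  have h2 : (((a.toNat : ℤ) - ((-a).toNat : ℤ) : ℤ) : ℂ) = ((a : ℤ) : ℂ) := by rw [h1]
  push_cast at h2
  exact h2

lemma GF_toNatR (a : ℤ) : ((a.toNat : ℝ) - ((-a).toNat : ℝ)) = (a : ℝ) := by
  have h2 := GF_toNatC a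
  exact_mod_cast h2

lemma GF_form {k : ℕ} {β : Type} [DecidableEq β] (x : Fin k → ℂ) (f : Fin k → β) :
    ∑ i, ∑ j, (if f i = f j then (x i * (starRingEnd ℂ) (x j)).re else 0) =
      ∑ b ∈ Finset.univ.image f, ‖∑ i ∈ Finset.univ.filter (fun i => f i = b), x i‖ ^ 2 := by
  have h1 : ∀ b, ‖∑ i ∈ Finset.univ.filter (fun i => f i = b), x i‖ ^ 2 =
      ∑ i ∈ Finset.univ.filter (fun i => f i = b),
        ∑ j, (if f i = f j then (x i * (starRingEnd ℂ) (x j)).re else 0) := by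
    intro b
    have e1 : ((‖∑ i ∈ Finset.univ.filter (fun i => f i = b), x i‖ ^ 2 : ℝ) : ℂ) =
        (∑ i ∈ Finset.univ.filter (fun i => f i = b), x i) *
          (starRingEnd ℂ) (∑ i ∈ Finset.univ.filter (fun i => f i = b), x i) := by
      rw [Complex.mul_conj, Complex.normSq_eq_norm_sq]
    have e2 := congrArg Complex.re e1
    rw [Complex.ofReal_re] at e2
    rw [e2, map_sum, Finset.sum_mul_sum, Complex.re_sum]
    refine Finset.sum_congr rfl fun i hi => ?_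
    rw [Complex.re_sum, Finset.sum_filter]
    refine Finset.sum_congr rfl fun j _ => ?_
    rw [Finset.mem_filter] at hi
    rw [hi.2]
    by_cases hj : f j = b
    · rw [if_pos hj, if_pos hj.symm]
    · rw [if_neg hj, if_neg (fun h => hj h.symm)]
  rw [Finset.sum_congr rfl fun b _ => h1 b]
  exact (Finset.sum_fiberwise_of_maps_to (fun i hi => Finset.mem_image_of_mem f hi) _).symm

lemma GF_form_nonneg {k : ℕ} {β : Type} [DecidableEq β] (x : Fin k → ℂ) (f : Fin k → β) :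
    0 ≤ ∑ i, ∑ j, (if f i = f j then (x i * (starRingEnd ℂ) (x j)).re else 0) := by
  rw [GF_form]
  exact Finset.sum_nonneg fun b _ => by positivity

lemma GF_form_pos {k : ℕ} {β : Type} [DecidableEq β] (x : Fin k → ℂ) (f : Fin k → β) (g : β → ℂ)
    (h : ∑ i, x i * g (f i) ≠ 0) :
    0 < ∑ i, ∑ j, (if f i = f j then (x i * (starRingEnd ℂ) (x j)).re else 0) := by
  rw [GF_form]
  by_contra h1
  apply h
  have h2 : ∑ b ∈ Finset.univ.image f, ‖∑ i ∈ Finset.univ.filter (fun i => f i = b), x i‖ ^ 2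
      = 0 := le_antisymm (not_lt.1 h1) (Finset.sum_nonneg fun b _ => by positivity)
  rw [Finset.sum_eq_zero_iff_of_nonneg (fun b _ => by positivity)] at h2
  rw [← Finset.sum_fiberwise_of_maps_to
    (fun i (hi : i ∈ Finset.univ) => Finset.mem_image_of_mem f hi) (fun i => x i * g (f i))]
  refine Finset.sum_eq_zero fun b hb => ?_
  have h3 := h2 b hb
  rw [sq_eq_zero_iff, norm_eq_zero] at h3
  have h4 : ∀ i ∈ Finset.univ.filter (fun i => f i = b), x i * g (f i) = x i * g b := by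
    intro i hi
    rw [(Finset.mem_filter.1 hi).2]
  rw [Finset.sum_congr rfl h4, ← Finset.sum_mul, h3, zero_mul]

/-- the energy is the sum of its parts -/
lemma GF_energy_sum {k : ℕ} (R : GFam k) (a : Fin k → ℕ) (τ : Fin k → ℝ) (c : Fin k → ℤ)
    (A : ℕ) (ha : ∀ i, 1 ≤ a i) (hA : ∀ i, a i ≤ A) :
    ∑ v ∈ Finset.Icc 1 A, R.en a τ c v = R.energy a τ c := by
  classical
  unfold GFam.en GFam.energy
  rw [← Finset.sum_div]
  congr 1
  have : Finite (R.K ≃ₐ[ℚ] R.K) := inferInstance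
  let _ : Fintype (R.K ≃ₐ[ℚ] R.K) := Fintype.ofFinite _
  simp only [finsum_eq_sum_of_fintype]
  rw [Finset.sum_comm]
  refine Finset.sum_congr rfl fun g _ => ?_
  rw [Finset.sum_comm]
  refine Finset.sum_congr rfl fun i _ => ?_
  rw [Finset.sum_comm]
  refine Finset.sum_congr rfl fun j _ => ?_
  by_cases h : a i = a j ∧ τ i = τ j
  · rw [if_pos h]
    have h1 : ∀ v : ℕ, (if a i = v ∧ a j = v ∧ τ i = τ j then
        (c i : ℝ) * c j * (R.chi i g * (starRingEnd ℂ) (R.chi j g)).re else 0) =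
        if a i = v then (c i : ℝ) * c j * (R.chi i g * (starRingEnd ℂ) (R.chi j g)).re
          else 0 := by
      intro v
      by_cases h2 : a i = v
      · rw [if_pos h2, if_pos ⟨h2, h.1 ▸ h2, h.2⟩]
      · rw [if_neg h2, if_neg (fun h3 => h2 h3.1)]
    rw [Finset.sum_congr rfl fun v _ => h1 v, Finset.sum_ite_eq,
      if_pos (Finset.mem_Icc.2 ⟨ha i, hA i⟩)]
  · rw [if_neg h]
    refine Finset.sum_eq_zero fun v _ => ?_
    rw [if_neg]
    rintro ⟨h1, h2, h3⟩
    exact h ⟨h1.trans h2.symm, h3⟩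

/-- the energy is positive if the degree is not zero -/
lemma GF_energy_pos {k : ℕ} (R : GFam k) (a : Fin k → ℕ) (τ : Fin k → ℝ) (c : Fin k → ℤ)
    (hd : ∑ i, (c i : ℝ) * a i * (R.rep i).dim ≠ 0) : 0 < R.energy a τ c := by
  classical
  unfold GFam.energy
  have hc : 0 < Nat.card (R.K ≃ₐ[ℚ] R.K) := Nat.card_pos
  apply div_pos _ (by exact_mod_cast hc)
  have : Finite (R.K ≃ₐ[ℚ] R.K) := inferInstance
  let _ : Fintype (R.K ≃ₐ[ℚ] R.K) := Fintype.ofFinite _
  rw [finsum_eq_sum_of_fintype]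
  have key : ∀ g : R.K ≃ₐ[ℚ] R.K, ∑ i, ∑ j, (if a i = a j ∧ τ i = τ j then
      (c i : ℝ) * c j * (R.chi i g * (starRingEnd ℂ) (R.chi j g)).re else 0) =
      ∑ i, ∑ j, (if (fun i => (a i, τ i)) i = (fun i => (a i, τ i)) j then
        (((c i : ℂ) * R.chi i g) * (starRingEnd ℂ) ((c j : ℂ) * R.chi j g)).re else 0) := by
    intro g
    refine Finset.sum_congr rfl fun i _ => Finset.sum_congr rfl fun j _ => ?_
    have e1 : (((c i : ℂ) * R.chi i g) * (starRingEnd ℂ) ((c j : ℂ) * R.chi j g)).re =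
        (c i : ℝ) * c j * (R.chi i g * (starRingEnd ℂ) (R.chi j g)).re := by
      have e2 : ((c i : ℂ) * R.chi i g) * (starRingEnd ℂ) ((c j : ℂ) * R.chi j g) =
          (((c i : ℝ) * (c j : ℝ) : ℝ) : ℂ) * (R.chi i g * (starRingEnd ℂ) (R.chi j g)) := by
        rw [map_mul]
        have e3 : (starRingEnd ℂ) (c j : ℂ) = (c j : ℂ) := by
          rw [← Complex.ofReal_intCast, Complex.conj_ofReal]
        rw [e3]
        push_cast
        ring
      rw [e2, Complex.re_ofReal_mul]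
    by_cases h : a i = a j ∧ τ i = τ j
    · rw [if_pos h, if_pos (Prod.ext h.1 h.2), e1]
    · rw [if_neg h, if_neg]
      intro h2
      exact h ⟨congrArg Prod.fst h2, congrArg Prod.snd h2⟩
  refine lt_of_lt_of_le ?_ (Finset.single_le_sum (f := fun g : R.K ≃ₐ[ℚ] R.K =>
    ∑ i, ∑ j, (if a i = a j ∧ τ i = τ j then
      (c i : ℝ) * c j * (R.chi i g * (starRingEnd ℂ) (R.chi j g)).re else 0))
    (fun g _ => by rw [key]; exact GF_form_nonneg _ (fun i => (a i, τ i))) (Finset.mem_univ 1))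
  show 0 < ∑ i, ∑ j, (if a i = a j ∧ τ i = τ j then
      (c i : ℝ) * c j * (R.chi i 1 * (starRingEnd ℂ) (R.chi j 1)).re else 0)
  rw [key]
  refine GF_form_pos (fun i => (c i : ℂ) * R.chi i 1) (fun i => (a i, τ i))
    (fun b => (b.1 : ℂ)) ?_
  intro h
  apply hd
  have h1 : ∀ i, R.chi i 1 = ((R.rep i).dim : ℂ) := by
    intro i
    unfold GFam.chi
    rw [map_one, LinearMap.trace_one]
    rfl
  have h2 : ∑ i, (((c i : ℝ) * a i * (R.rep i).dim : ℝ) : ℂ) = 0 := by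
    rw [← h]
    refine Finset.sum_congr rfl fun i _ => ?_
    rw [h1]
    push_cast
    ring
  exact_mod_cast h2

/-- (GF) -/
theorem pf_GF (h1 : T_FIW) (h2 : T_RVS) (h3 : T_MNG) (h4 : T_ALL) : T_GF := by
  classical
  intro k R Λ a τ c m κ ε ρ d hR ha hd hd0 hdm hκ hsq hε hρ1 hρ2
  choose L hLn hh hL using fun i => h4 (R.rep i) (Λ i) (hR i)
  have hL : ∀ i, Agrees (L i) (Λ i) := fun i => hL i
  have hm : 1 ≤ m := by
    rcases Nat.eq_zero_or_pos m with hm | hm
    · subst hm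
      rw [Nat.cast_zero, mul_zero] at hdm
      linarith
    · exact hm
  let F : Fam :=
    { I := Σ i : Fin k, Fin (c i).toNat
      J := Σ i : Fin k, Fin (-c i).toNat
      fI := inferInstance
      fJ := inferInstance
      p := fun x => ⟨L x.1, (a x.1 : ℝ), τ x.1, by exact_mod_cast ha x.1⟩
      q := fun x => ⟨L x.1, (a x.1 : ℝ), τ x.1, by exact_mod_cast ha x.1⟩ }
  have hFd : F.d = d := by
    change ∑ x : (Σ i : Fin k, Fin (c i).toNat), (a x.1 : ℝ) * ((L x.1).n : ℝ) -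
      ∑ x : (Σ i : Fin k, Fin (-c i).toNat), (a x.1 : ℝ) * ((L x.1).n : ℝ) = _
    rw [sum_sigma_fin (fun i => (c i).toNat) (fun i => (a i : ℝ) * ((L i).n : ℝ)),
      sum_sigma_fin (fun i => (-c i).toNat) (fun i => (a i : ℝ) * ((L i).n : ℝ)),
      ← Finset.sum_sub_distrib, hd]
    refine Finset.sum_congr rfl fun i _ => ?_
    rw [hLn, nsmul_eq_mul, nsmul_eq_mul, ← sub_mul, GF_toNatR]
    ring
  have hA' : ∀ i, a i ≤ ∑ j, a j := fun i =>
    Finset.single_le_sum (f := a) (fun j _ => Nat.zero_le _) (Finset.mem_univ i)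
  have hp1 : ∀ i : F.I, ∃ n : ℕ, 1 ≤ n ∧ n ≤ (∑ j, a j) ∧ (F.p i).r = n := fun x =>
    ⟨a x.1, ha x.1, hA' x.1, rfl⟩
  have hq1 : ∀ j : F.J, ∃ n : ℕ, 1 ≤ n ∧ n ≤ (∑ j, a j) ∧ (F.q j).r = n := fun x =>
    ⟨a x.1, ha x.1, hA' x.1, rfl⟩
  -- the mean
  have hmean : ∀ v : ℕ, 1 ≤ v → v ≤ (∑ j, a j) →
      Mean (fun p => ‖(∑ i, (if (F.p i).r = v then (p : ℂ) ^ (-((F.p i).τ * I) : ℂ) *
            ∑ k, (F.p i).L.h k p else 0) -
          ∑ j, (if (F.q j).r = v then (p : ℂ) ^ (-((F.q j).τ * I) : ℂ) *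
            ∑ k, (F.q j).L.h k p else 0)) / m‖ ^ 2)
        (R.en a τ c v / m ^ 2) := by
    intro v _ _
    have h5 := h3 k R a τ c m v (fun i p => ∑ l, (L i).h l p) hm (by
      intro i p
      have h6 := hh i p 1 le_rfl
      simp only [pow_one] at h6
      exact h6)
    have h6 : (fun p : ℕ => ‖(∑ i, (if (F.p i).r = v then (p : ℂ) ^ (-((F.p i).τ * I) : ℂ) *
            ∑ k, (F.p i).L.h k p else 0) -
          ∑ j, (if (F.q j).r = v then (p : ℂ) ^ (-((F.q j).τ * I) : ℂ) *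
            ∑ k, (F.q j).L.h k p else 0)) / m‖ ^ 2) =
        fun p : ℕ => ‖(∑ i, if a i = v then
          (c i : ℂ) * (∑ l, (L i).h l p) * (p : ℂ) ^ (-(τ i * I) : ℂ) else 0) / m‖ ^ 2 := by
      ext p
      congr 3
      change ∑ x : (Σ i : Fin k, Fin (c i).toNat), (if (a x.1 : ℝ) = v then
          (p : ℂ) ^ (-(τ x.1 * I) : ℂ) * (∑ l, (L x.1).h l p) else 0) -
        ∑ x : (Σ i : Fin k, Fin (-c i).toNat), (if (a x.1 : ℝ) = v then
          (p : ℂ) ^ (-(τ x.1 * I) : ℂ) * (∑ l, (L x.1).h l p) else 0) = _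
      rw [sum_sigma_fin (fun i => (c i).toNat) (fun i => if (a i : ℝ) = v then
          (p : ℂ) ^ (-(τ i * I) : ℂ) * (∑ l, (L i).h l p) else 0),
        sum_sigma_fin (fun i => (-c i).toNat) (fun i => if (a i : ℝ) = v then
          (p : ℂ) ^ (-(τ i * I) : ℂ) * (∑ l, (L i).h l p) else 0), ← Finset.sum_sub_distrib]
      refine Finset.sum_congr rfl fun i _ => ?_
      by_cases hv : a i = v
      · rw [if_pos hv, if_pos (by rw [hv]), nsmul_eq_mul, nsmul_eq_mul, ← sub_mul, GF_toNatC]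
        ring
      · rw [if_neg hv, if_neg (by exact_mod_cast hv), nsmul_zero, nsmul_zero, sub_zero]
    rw [h6]
    exact h5
  have hm0 : (0 : ℝ) < (m : ℝ) ^ 2 := by
    have : (0 : ℝ) < m := by exact_mod_cast hm
    positivity
  have hsum : ∑ v ∈ Finset.Icc 1 (∑ j, a j), R.en a τ c v / (m : ℝ) ^ 2 =
      R.energy a τ c / m ^ 2 := by
    rw [← Finset.sum_div, GF_energy_sum R a τ c _ ha hA']
  have hα0 : 0 < R.energy a τ c / (m : ℝ) ^ 2 :=
    div_pos (GF_energy_pos R a τ c (by rw [← hd]; exact hd0.ne')) hm0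
  have hα1 : R.energy a τ c / (m : ℝ) ^ 2 ≠ 1 := by
    intro h
    rw [div_eq_one_iff_eq hm0.ne'] at h
    exact hsq h
  have hRV := h2 F m (∑ j, a j) _ hm hp1 hq1 hmean (by rw [hsum]; exact hα0)
  rw [hsum] at hRV
  obtain ⟨T₀, h⟩ := h1 F m _ κ ε ρ (fun i => ⟨a i.1, ha i.1, rfl⟩) (fun j => ⟨a j.1, ha j.1, rfl⟩)
    hm (by rw [hFd]; exact hd0) (by rw [hFd]; exact hdm) hκ hα0 hα1 hRV hε
    (by
      intro h
      rw [div_lt_one hm0] at h
      rw [hFd]
      exact hρ1 h)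
    (by
      intro h
      rw [one_lt_div hm0] at h
      rw [hFd]
      exact hρ2 h)
  obtain ⟨T₁, hT₁⟩ := exists_height (fun i : Fin k => (a i : ℝ)) τ 1 one_pos
    (fun i => by exact_mod_cast ha i)
  refine ⟨max (max T₀ 0) T₁, fun T hT => ?_⟩
  have hT0 : 0 ≤ T := ((le_max_right _ _).trans (le_max_left _ _)).trans hT
  obtain ⟨Z, hZ, hz⟩ := h T (((le_max_left _ _).trans (le_max_left _ _)).trans hT)
  refine ⟨Z, hZ, fun z hzZ => ?_⟩
  obtain ⟨h1', h2', h3'⟩ := hz z hzZ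
  have h1q : T / 4 ≤ z.im := by linarith
  refine ⟨h1', h2', ?_⟩
  have hp : ∀ i, 0 < (wl (a i : ℝ) (τ i) z).im :=
    hT₁ T ((le_max_right _ _).trans hT) z h1q
  have hN := order_N F z (fun x => hp x.1) (fun x => hp x.1)
  have hM := order_M F z (fun x => hp x.1) (fun x => hp x.1)
  choose u b hab1 hab2 hab3 using fun i => nat_orders (hL i) (hp i)
  have hN' : analyticOrderAt F.N z =
      ((∑ i, (c i).toNat * u i + ∑ i, (-c i).toNat * b i : ℕ) : ℕ∞) := by
    rw [hN]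
    change (∑ x : (Σ i : Fin k, Fin (c i).toNat), analyticOrderAt (L x.1).num
        (wl (a x.1 : ℝ) (τ x.1) z)) + ∑ x : (Σ i : Fin k, Fin (-c i).toNat),
        analyticOrderAt (L x.1).den (wl (a x.1 : ℝ) (τ x.1) z) = _
    rw [sum_sigma_fin (fun i => (c i).toNat)
        (fun i => analyticOrderAt (L i).num (wl (a i : ℝ) (τ i) z)),
      sum_sigma_fin (fun i => (-c i).toNat)
        (fun i => analyticOrderAt (L i).den (wl (a i : ℝ) (τ i) z))]
    simp only [hab1, hab2, nsmul_eq_mul]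
    push_cast
    rfl
  have hM' : analyticOrderAt F.M z =
      ((∑ i, (c i).toNat * b i + ∑ i, (-c i).toNat * u i : ℕ) : ℕ∞) := by
    rw [hM]
    change (∑ x : (Σ i : Fin k, Fin (c i).toNat), analyticOrderAt (L x.1).den
        (wl (a x.1 : ℝ) (τ x.1) z)) + ∑ x : (Σ i : Fin k, Fin (-c i).toNat),
        analyticOrderAt (L x.1).num (wl (a x.1 : ℝ) (τ x.1) z) = _
    rw [sum_sigma_fin (fun i => (c i).toNat)
        (fun i => analyticOrderAt (L i).den (wl (a i : ℝ) (τ i) z)),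
      sum_sigma_fin (fun i => (-c i).toNat)
        (fun i => analyticOrderAt (L i).num (wl (a i : ℝ) (τ i) z))]
    simp only [hab1, hab2, nsmul_eq_mul]
    push_cast
    rfl
  rintro ⟨j, hj⟩
  apply h3' j
  rw [hN', hM', ← Nat.cast_add, Nat.cast_inj]
  have hord : ∀ i, (meromorphicOrderAt (Λ i)
      (1 / 2 + (a i : ℂ) * (z - 1 / 2) + τ i * I)).untop₀ = (u i : ℤ) - (b i : ℤ) := by
    intro i
    have e : (1 / 2 + (a i : ℂ) * (z - 1 / 2) + τ i * I : ℂ) = wl (a i : ℝ) (τ i) z := by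
      unfold wl
      push_cast
      ring
    rw [e, hab3 i, WithTop.untop₀_coe]
  simp only [hord] at hj
  have key : ∀ i, ((c i).toNat : ℤ) * u i + ((-c i).toNat : ℤ) * b i =
      ((c i).toNat : ℤ) * b i + ((-c i).toNat : ℤ) * u i + c i * ((u i : ℤ) - (b i : ℤ)) := by
    intro i
    rcases le_total 0 (c i) with h4 | h4
    · rw [Int.toNat_of_nonneg h4, Int.toNat_of_nonpos (by omega)]
      push_cast
      ring
    · rw [Int.toNat_of_nonneg (by omega : 0 ≤ -c i), Int.toNat_of_nonpos h4]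
      push_cast
      ring
  have h5 : ((∑ i, (c i).toNat * u i + ∑ i, (-c i).toNat * b i : ℕ) : ℤ) =
      ((∑ i, (c i).toNat * b i + ∑ i, (-c i).toNat * u i + m * j : ℕ) : ℤ) := by
    push_cast
    rw [← hj, ← Finset.sum_add_distrib, ← Finset.sum_add_distrib, ← Finset.sum_add_distrib]
    exact Finset.sum_congr rfl fun i _ => key i
  exact_mod_cast h5

end Pool.Agent.H60.R2
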