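import Pool.Agent.H29.R2.Targets
import Pool.Agent.H65.RC.LGT

/-!
# The zeta function of a number field has no zeros on the line `Re s = 1`
-/

set_option autoImplicit false

open NumberField Complex Filter Topology

namespace Pool.Agent.H60.R2

open Pool.Agent.H29.R2 Pool.Agent.H28.RC Pool.Agent.H25.HK Pool.Agent.H25
open Pool.Agent.H29.RT Pool.Agent.H29.RS

lemma CNZ_re_term (p : Nat.Primes) (r σ y : ℝ) :
    ((r : ℂ) * ((p : ℕ) : ℂ) ^ (-(1 + σ + y * I))).re =
      r * (Real.exp (-(1 + σ) * Real.log p) * Real.cos (y * Real.log p)) := by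
  have hp : ((p : ℕ) : ℂ) ≠ 0 := by exact_mod_cast p.2.ne_zero
  rw [Complex.re_ofReal_mul, Complex.cpow_def_of_ne_zero hp, ← Complex.natCast_log]
  congr 1
  rw [Complex.exp_re]
  have e1 : (((Real.log (p : ℕ) : ℝ) : ℂ) * -(1 + (σ : ℂ) + y * I)).re =
      -(1 + σ) * Real.log p := by
    rw [Complex.re_ofReal_mul]
    simp
    ring
  have e2 : (((Real.log (p : ℕ) : ℝ) : ℂ) * -(1 + (σ : ℂ) + y * I)).im =
      -(y * Real.log p) := by
    rw [Complex.im_ofReal_mul]
    simp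
    ring
  rw [e1, e2, Real.cos_neg]

/-- the inequality of Mertens for the sum over the primes -/
lemma CNZ_three_four_one (e : Nat.Primes → ℕ → ℂ) (r : Nat.Primes → ℝ) (hr : ∀ p, 0 ≤ r p)
    (he : ∀ p, e p 1 = r p)
    (hs : ∀ s : ℂ, 1 < s.re → Summable (fun p : Nat.Primes => e p 1 * ((p : ℕ) : ℂ) ^ (-s)))
    (σ t : ℝ) (hσ : 0 < σ) :
    0 ≤ 3 * (P1 e (1 + σ + (0 : ℝ) * I)).re + 4 * (P1 e (1 + σ + t * I)).re +
      (P1 e (1 + σ + (2 * t : ℝ) * I)).re := by
  have hre : ∀ y : ℝ, 1 < (1 + (σ : ℂ) + y * I).re := by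
    intro y
    simp
    exact hσ
  have h1 : ∀ y : ℝ, HasSum (fun p : Nat.Primes =>
      r p * (Real.exp (-(1 + σ) * Real.log p) * Real.cos (y * Real.log p)))
      (P1 e (1 + σ + y * I)).re := by
    intro y
    have h2 := Complex.hasSum_re (hs _ (hre y)).hasSum
    have h3 : (fun p : Nat.Primes =>
        (e p 1 * ((p : ℕ) : ℂ) ^ (-(1 + (σ : ℂ) + y * I))).re) = fun p : Nat.Primes =>
        r p * (Real.exp (-(1 + σ) * Real.log p) * Real.cos (y * Real.log p)) := by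
      funext p
      rw [he, CNZ_re_term]
    rw [h3] at h2
    exact h2
  have h2 := (((h1 0).mul_left 3).add ((h1 t).mul_left 4)).add (h1 (2 * t))
  refine h2.nonneg fun p => ?_
  have h3 : 3 * (r p * (Real.exp (-(1 + σ) * Real.log p) * Real.cos (0 * Real.log p))) +
      4 * (r p * (Real.exp (-(1 + σ) * Real.log p) * Real.cos (t * Real.log p))) +
      r p * (Real.exp (-(1 + σ) * Real.log p) * Real.cos (2 * t * Real.log p)) =
      2 * (r p * Real.exp (-(1 + σ) * Real.log p)) * (1 + Real.cos (t * Real.log p)) ^ 2 := by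
    rw [zero_mul, Real.cos_zero, mul_assoc 2 t, Real.cos_two_mul]
    ring
  rw [h3]
  have := hr p
  positivity

/-- (CNZ) -/
theorem pf_CNZ (h : T_CNT) (h1 : T_ELO) (h2 : T_PAN) (h3 : T_SPA) : T_CNZ := by
  intro K _ _
  obtain ⟨H, hd, hH, -⟩ := h K (triv K)
  refine ⟨H, hd, hH, fun t ht => ?_⟩
  obtain ⟨hC, hL⟩ := h1 K (triv K)
  obtain ⟨hP1, hP2, -⟩ := h2 (sp (triv K)) (Module.finrank ℚ K) hC
  have hcont : ∀ y : ℝ, ContinuousAt H (1 + y * I) := fun y =>
    (hd _ (by simp)).continuousAt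
  -- the path
  have hpath : ∀ y : ℝ, Tendsto (fun σ : ℝ => (1 + (σ : ℂ) + y * I)) (𝓝[>] 0)
      (𝓝 (1 + y * I)) := by
    intro y
    have : Continuous fun σ : ℝ => (1 + (σ : ℂ) + y * I) := by fun_prop
    have h4 := this.tendsto 0
    simp only [Complex.ofReal_zero, add_zero] at h4
    exact h4.mono_left nhdsWithin_le_nhds
  have hre : ∀ σ y : ℝ, 0 < σ → 1 < (1 + (σ : ℂ) + y * I).re := by
    intro σ y hσ
    simp
    exact hσ
  have hHl : ∀ y : ℝ, Tendsto (fun σ : ℝ => ‖H (1 + (σ : ℂ) + y * I)‖) (𝓝[>] 0)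
      (𝓝 ‖H (1 + y * I)‖) := fun y => ((hcont y).tendsto.comp (hpath y)).norm
  by_cases ht0 : t = 0
  · -- the residue
    subst ht0
    have h4 : Tendsto (fun σ : ℝ => H (1 + (σ : ℂ) + ((0 : ℝ) : ℂ) * I)) (𝓝[>] 0)
        (𝓝 (dedekindZeta_residue K : ℂ)) := by
      have h5 : Tendsto (fun σ : ℝ => 1 + σ) (𝓝[>] 0) (𝓝[>] 1) := by
        refine tendsto_nhdsWithin_iff.2 ⟨?_, ?_⟩
        · have : Continuous fun σ : ℝ => 1 + σ := by fun_prop
          have h6 := this.tendsto 0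
          rw [add_zero] at h6
          exact h6.mono_left nhdsWithin_le_nhds
        · filter_upwards [self_mem_nhdsWithin] with σ hσ
          have : (0 : ℝ) < σ := hσ
          show (1 : ℝ) < 1 + σ
          linarith
      have h6 := (tendsto_sub_one_mul_dedekindZeta_nhdsGT K).comp h5
      refine h6.congr' ?_
      filter_upwards [self_mem_nhdsWithin] with σ hσ
      have hσ' : (0 : ℝ) < σ := hσ
      rw [hH _ (hre σ 0 hσ'), Pool.Agent.H65.RC.Lc_triv K (hre σ 0 hσ')]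
      simp
    have h5 := tendsto_nhds_unique h4 ((hcont 0).tendsto.comp (hpath 0))
    rw [ht] at h5
    have h6 := dedekindZeta_residue_pos K
    rw [Complex.ofReal_eq_zero] at h5
    exact h6.ne' h5
  · -- the three, four, one inequality
    let Q : ℝ → ℝ := fun σ => 3 * (P2 (sp (triv K)) (1 + σ + (0 : ℝ) * I)).re +
      4 * (P2 (sp (triv K)) (1 + σ + t * I)).re + (P2 (sp (triv K)) (1 + σ + (2 * t : ℝ) * I)).re
    let Q0 : ℝ := 3 * (P2 (sp (triv K)) (1 + (0 : ℝ) * I)).re +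
      4 * (P2 (sp (triv K)) (1 + t * I)).re + (P2 (sp (triv K)) (1 + (2 * t : ℝ) * I)).re
    have hQ : Tendsto Q (𝓝[>] 0) (𝓝 Q0) := by
      have h4 : ∀ y : ℝ, Tendsto (fun σ : ℝ => (P2 (sp (triv K)) (1 + σ + y * I)).re) (𝓝[>] 0)
          (𝓝 (P2 (sp (triv K)) (1 + y * I)).re) := by
        intro y
        have h5 : ContinuousAt (P2 (sp (triv K))) (1 + y * I) :=
          (hP2 _ (by simp; norm_num)).continuousAt
        exact (Complex.continuous_re.tendsto _).comp (h5.tendsto.comp (hpath y))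
      exact (((h4 0).const_mul 3).add ((h4 t).const_mul 4)).add (h4 (2 * t))
    have hlow : ∀ σ : ℝ, 0 < σ → Real.exp (Q σ) ≤
        ‖Lc (triv K) (1 + σ + (0 : ℝ) * I)‖ ^ 3 * ‖Lc (triv K) (1 + σ + t * I)‖ ^ 4 *
          ‖Lc (triv K) (1 + σ + (2 * t : ℝ) * I)‖ := by
      intro σ hσ
      rw [hL _ (hre σ 0 hσ), hL _ (hre σ t hσ), hL _ (hre σ (2 * t) hσ), Complex.norm_exp,
        Complex.norm_exp, Complex.norm_exp, ← Real.exp_nat_mul, ← Real.exp_nat_mul,
        ← Real.exp_add, ← Real.exp_add, Real.exp_le_exp]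
      have h4 := CNZ_three_four_one (sp (triv K)) (fun p => (spf K p 1 : ℝ))
        (fun p => Nat.cast_nonneg _) (fun p => by
          unfold sp
          rw [if_neg one_ne_zero, (h3 K).2 p 1 p.2 le_rfl]
          push_cast
          rfl) (fun s hs => (hP1 s hs).1) σ t hσ
      simp only [Complex.add_re] at h4 ⊢
      push_cast
      simp only [Q]
      push_cast at h4 ⊢
      linarith
    have hLH : ∀ σ y : ℝ, 0 < σ → ‖Lc (triv K) (1 + σ + y * I)‖ =
        ‖H (1 + σ + y * I)‖ / ‖(σ : ℂ) + y * I‖ := by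
      intro σ y hσ
      have h5 : ((σ : ℂ) + y * I) ≠ 0 := by
        intro h6
        have h7 := congrArg Complex.re h6
        simp at h7
        exact hσ.ne' h7
      rw [hH _ (hre σ y hσ), show (1 + (σ : ℂ) + y * I - 1) = (σ : ℂ) + y * I by ring, norm_mul,
        mul_div_cancel_left₀ _ (norm_ne_zero_iff.2 h5)]
    have hder : Tendsto (fun σ : ℝ => ‖H (1 + σ + t * I)‖ / σ) (𝓝[>] 0)
        (𝓝 ‖deriv H (1 + t * I)‖) := by
      have h5 : HasDerivAt H (deriv H (1 + t * I)) (1 + t * I) :=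
        (hd _ (by simp)).hasDerivAt
      have h6 : HasDerivAt (fun σ : ℝ => H (1 + σ + t * I)) (deriv H (1 + t * I)) 0 := by
        have h7 : HasDerivAt (fun σ : ℝ => (1 + (σ : ℂ) + t * I)) 1 0 := by
          have h8 : HasDerivAt (fun σ : ℝ => (σ : ℂ)) 1 0 := Complex.ofRealCLM.hasDerivAt
          simpa using (h8.const_add 1).add_const (t * I)
        have h9 : HasDerivAt H (deriv H (1 + t * I)) (1 + ((0 : ℝ) : ℂ) + t * I) := by
          simpa using h5
        have h10 := HasDerivAt.scomp (0 : ℝ) h9 h7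
        rw [one_smul] at h10
        exact h10
      have h7 := h6.tendsto_slope_zero_right
      have h8 := h7.norm
      refine h8.congr' ?_
      filter_upwards [self_mem_nhdsWithin] with σ hσ
      have hσ' : (0 : ℝ) < σ := hσ
      have e0 : H (1 + ((0 : ℝ) : ℂ) + t * I) = 0 := by
        rw [Complex.ofReal_zero, add_zero, ht]
      rw [zero_add, e0, sub_zero, norm_smul, norm_inv, Real.norm_of_nonneg hσ'.le, div_eq_inv_mul]
    have hup : Tendsto (fun σ : ℝ => σ * (‖H (1 + (σ : ℂ) + ((0 : ℝ) : ℂ) * I)‖ ^ 3 *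
        (‖H (1 + σ + t * I)‖ / σ) ^ 4 * ‖H (1 + σ + (2 * t : ℝ) * I)‖ /
          (‖(σ : ℂ) + t * I‖ ^ 4 * ‖(σ : ℂ) + (2 * t : ℝ) * I‖))) (𝓝[>] 0) (𝓝 0) := by
      have h5 : ∀ y : ℝ, Tendsto (fun σ : ℝ => ‖(σ : ℂ) + y * I‖) (𝓝[>] 0) (𝓝 ‖(y : ℂ) * I‖) := by
        intro y
        have : Continuous fun σ : ℝ => ‖(σ : ℂ) + y * I‖ := by fun_prop
        have h4 := this.tendsto 0
        simp only [Complex.ofReal_zero, zero_add] at h4
        exact h4.mono_left nhdsWithin_le_nhds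
      have h6 : Tendsto (fun σ : ℝ => σ) (𝓝[>] 0) (𝓝 0) := nhdsWithin_le_nhds
      have h7 := h6.mul (((((hHl 0).pow 3).mul (hder.pow 4)).mul (hHl (2 * t))).div
        (((h5 t).pow 4).mul (h5 (2 * t))) (by simp [ht0]))
      rw [zero_mul] at h7
      exact h7
    have hfin : ∀ᶠ σ : ℝ in 𝓝[>] 0, Real.exp (Q σ) ≤
        σ * (‖H (1 + (σ : ℂ) + ((0 : ℝ) : ℂ) * I)‖ ^ 3 *
        (‖H (1 + σ + t * I)‖ / σ) ^ 4 * ‖H (1 + σ + (2 * t : ℝ) * I)‖ /
          (‖(σ : ℂ) + t * I‖ ^ 4 * ‖(σ : ℂ) + (2 * t : ℝ) * I‖)) := by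
      filter_upwards [self_mem_nhdsWithin] with σ hσ
      have hσ' : (0 : ℝ) < σ := hσ
      refine (hlow σ hσ').trans (le_of_eq ?_)
      rw [hLH σ 0 hσ', hLH σ t hσ', hLH σ (2 * t) hσ']
      have e1 : ‖(σ : ℂ) + ((0 : ℝ) : ℂ) * I‖ = σ := by
        rw [Complex.ofReal_zero, zero_mul, add_zero, Complex.norm_real,
          Real.norm_of_nonneg hσ'.le]
      rw [e1]
      have e2 : ‖(σ : ℂ) + t * I‖ ≠ 0 := by
        rw [norm_ne_zero_iff]
        intro h6
        have h7 := congrArg Complex.re h6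
        simp at h7
        exact hσ'.ne' h7
      have e3 : ‖(σ : ℂ) + (2 * t : ℝ) * I‖ ≠ 0 := by
        rw [norm_ne_zero_iff]
        intro h6
        have h7 := congrArg Complex.re h6
        simp at h7
        exact hσ'.ne' h7
      field_simp
    have hlim : Tendsto (fun σ => Real.exp (Q σ)) (𝓝[>] 0) (𝓝 (Real.exp Q0)) :=
      (Real.continuous_exp.tendsto _).comp hQ
    have := le_of_tendsto_of_tendsto hlim hup hfin
    exact absurd this (not_le.2 (Real.exp_pos _))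

end Pool.Agent.H60.R2
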